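import Pool.Agent.H521.G.OppK

open MeasureTheory Set Filter Topology
open scoped ENNReal ComplexConjugate

namespace Pool.Agent.Results.MP_1e9cc8_nt.KFoldOppermannFamilies

/-- A sequence of (Beurling) generalised primes `1 < p 0 < p 1 < ⋯ → ∞`. -/
structure GenPrimes (p : ℕ → ℝ) : Prop where
  one_lt : 1 < p 0
  strictMono : StrictMono p
  tendsto : Tendsto p atTop atTop

/-- The generalised integer `∏ p_j ^ (e j)` with exponent vector `e`. -/
noncomputable def genInt (p : ℕ → ℝ) (e : ℕ →₀ ℕ) : ℝ := e.prod fun j k => p j ^ k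

/-- `N_P(x)`, the number of generalised integers `≤ x`, counted with multiplicity. -/
noncomputable def countInts (p : ℕ → ℝ) (x : ℝ) : ℕ := Set.ncard {e : ℕ →₀ ℕ | genInt p e ≤ x}

/-- `π_P(x)`, the number of generalised primes `≤ x`. -/
noncomputable def countPrimes (p : ℕ → ℝ) (x : ℝ) : ℕ := Set.ncard {j : ℕ | p j ≤ x}

/-- The zeta function `ζ_P(s) = ∑ n^{-s}` over the generalised integers. -/
noncomputable def zetaP (p : ℕ → ℝ) (s : ℂ) : ℂ := ∑' e : ℕ →₀ ℕ, ((genInt p e : ℝ) : ℂ) ^ (-s)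

/-- The main term `∫_2^x (1 - ∑_{ρ ∈ Z} Re u^{ρ-1}) du / log u` of the prime counting function,
that is `li x - ∑_ρ li x^ρ` up to a constant, for a finite multiset `Z` of zeros. -/
noncomputable def primeMain (Z : Multiset ℂ) (x : ℝ) : ℝ :=
  ∫ u in (2 : ℝ)..x, (1 - (Z.map fun ρ => ((u : ℂ) ^ (ρ - 1)).re).sum) / Real.log u

/-- `p` is a system of generalised primes whose zeta function continues to `Re s > 1/2`
with only a simple pole at `1`, with zeros exactly `Z` there (with multiplicity) and with the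
Lindelöf bound, and with square-root error terms in the counting of generalised integers and
of generalised primes.  For `Z = 0` this is the Riemann hypothesis for `p`. -/
structure System (Z : Multiset ℂ) (p : ℕ → ℝ) : Prop where
  primes : GenPrimes p
  summable : ∀ s : ℂ, 1 < s.re → Summable fun e : ℕ →₀ ℕ => ((genInt p e : ℝ) : ℂ) ^ (-s)
  zeta : ∃ g : ℂ → ℂ, DifferentiableOn ℂ g {s : ℂ | 1 / 2 < s.re} ∧
    (∀ s : ℂ, 1 < s.re → (s - 1) * zetaP p s = (Z.map fun ρ => s - ρ).prod * Complex.exp (g s)) ∧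
    ∀ ε : ℝ, 0 < ε → ∃ C : ℝ, ∀ s : ℂ, 1 / 2 + ε ≤ s.re →
      ‖(Z.map fun ρ => s - ρ).prod * Complex.exp (g s)‖ ≤ C * (1 + ‖s‖) ^ (1 + ε)
  ints : ∃ κ : ℝ, 0 < κ ∧ ∀ ε : ℝ, 0 < ε → ∃ C : ℝ, ∀ x : ℝ, 1 ≤ x →
    |(countInts p x : ℝ) - κ * x| ≤ C * x ^ (1 / 2 + ε)
  pnt : ∀ ε : ℝ, 0 < ε → ∃ C : ℝ, ∀ x : ℝ, 2 ≤ x →
    |(countPrimes p x : ℝ) - primeMain Z x| ≤ C * x ^ (1 / 2 + ε)

/-- The number of generalised primes in the closed interval `[x, y]`. -/
noncomputable def primesIn (p : ℕ → ℝ) (x y : ℝ) : ℕ := Set.ncard {k : ℕ | x ≤ p k ∧ p k ≤ y}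

/-- Sets of natural numbers with `#(S ∩ [1, N]) = O(N^ε)` for every `ε > 0`. -/
def Sparse (S : Set ℕ) : Prop := ∀ ε : ℝ, 0 < ε → ∃ C : ℝ, ∀ N : ℕ, 1 ≤ N →
  ((Set.ncard {n | n ∈ S ∧ n ≤ N} : ℕ) : ℝ) ≤ C * (N : ℝ) ^ ε

open Pool.Agent.H521 Pool.Agent.H521.G in
/-- **Theorem.** The families of exceptional sets in the `k`-fold Oppermann conjecture that occur
for systems of generalised primes with Riemann hypothesis (or any other finite set of zeros) and
with square-root error terms: `S k` is the set of `n` with fewer than `k` primes in `[n²-n, n²]`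
and `T k` the one for `[n², n²+n]`, up to finite sets. -/
theorem result (Z : Multiset ℂ) (hZ : ∀ ρ ∈ Z, 1 / 2 < ρ.re ∧ ρ.re < 1)
    (hZc : Z.map conj = Z) (S T : ℕ → Set ℕ) :
    (∃ p : ℕ → ℝ, System Z p ∧ ∀ k, 1 ≤ k → ∃ n₀ : ℕ, ∀ n, n₀ ≤ n →
      (primesIn p ((n : ℝ) ^ 2 - n) ((n : ℝ) ^ 2) < k ↔ n ∈ S k) ∧
      (primesIn p ((n : ℝ) ^ 2) ((n : ℝ) ^ 2 + n) < k ↔ n ∈ T k)) ↔
    ∀ k, 1 ≤ k → Sparse (S k) ∧ Sparse (T k) ∧ (S k \ S (k + 1)).Finite ∧
      (T k \ T (k + 1)).Finite := by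
  have hZ1 : ∀ ρ ∈ Z, ρ.re < 1 := fun ρ h => (hZ ρ h).2
  constructor
  · rintro ⟨p, hS, h⟩ k hk
    have hW : SysW Z p := ⟨hS.primes.one_lt, hS.primes.strictMono, hS.primes.tendsto,
      hS.summable, hS.zeta, hS.pnt⟩
    obtain ⟨h1, h2⟩ := opp_few hZ1 hZc hW k
    obtain ⟨n₀, h3⟩ := h k hk
    obtain ⟨n₁, h4⟩ := h (k + 1) (by omega)
    refine ⟨?_, ?_, ?_, ?_⟩
    · exact Sps.of_map h1 (n₀ := n₀) (A := 1) (f := id)
        (fun n hn hn0 => lt_of_le_of_lt (cntO_le_cntC hS.primes.tendsto _ _) ((h3 n hn0).1.2 hn))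
        (fun n => by simp) (fun m n _ _ _ _ hmn => hmn)
    · exact Sps.of_map h2 (n₀ := n₀) (A := 1) (f := id)
        (fun n hn hn0 => lt_of_le_of_lt (cntO_le_cntC hS.primes.tendsto _ _) ((h3 n hn0).2.2 hn))
        (fun n => by simp) (fun m n _ _ _ _ hmn => hmn)
    · apply (Set.finite_Iio (max n₀ n₁)).subset
      rintro n ⟨ha, hb⟩
      simp only [mem_Iio]
      by_contra hc
      push Not at hc
      exact hb ((h4 n ((le_max_right _ _).trans hc)).1.1
        (lt_trans ((h3 n ((le_max_left _ _).trans hc)).1.2 ha) (Nat.lt_succ_self k)))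
    · apply (Set.finite_Iio (max n₀ n₁)).subset
      rintro n ⟨ha, hb⟩
      simp only [mem_Iio]
      by_contra hc
      push Not at hc
      exact hb ((h4 n ((le_max_right _ _).trans hc)).2.1
        (lt_trans ((h3 n ((le_max_left _ _).trans hc)).2.2 ha) (Nat.lt_succ_self k)))
  · intro h
    obtain ⟨p, hs, h1⟩ := oppk_exists hZ1 hZc (S := S) (T := T) (fun k hk => (h k hk).1)
      (fun k hk => (h k hk).2.2.1) (fun k hk => (h k hk).2.1) (fun k hk => (h k hk).2.2.2)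
    exact ⟨p, ⟨⟨by linarith [hs.three_le 0], hs.mono, hs.tendsto⟩, hs.summable, hs.zeta,
      hs.ints, hs.pnt⟩, h1⟩

end Pool.Agent.Results.MP_1e9cc8_nt.KFoldOppermannFamilies
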