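import Pool.Agent.H563.TG.Opp

/-!
# `k`-fold Oppermann for numbers with at most three prime factors, with a fixed thin set of offsets

There is one fixed set `S` of integers with at most `C (log x) ^ 2` elements up to `x` such that for every `k` and
every large `n` at least `k` of the numbers `n ^ 2 - s`, and at least `k` of the numbers `n ^ 2 + s`, `s ∈ S`,
`1 ≤ s < n`, have at most three prime factors. The same holds around every large integer `N` in the place of `n ^ 2`: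
the offsets may be restricted to `s ≤ N ^ η`, `η > 2 / 5`, and there are at least `B log N` of them on both sides.
-/

set_option autoImplicit false

namespace Pool.Agent.Results.MP_1e9cc8_nt.ThinSetOfOffsets

open Finset Filter
open Pool.Agent.H563.TG (AP GO mem_GO GO_card hitO hupO hlowO univI)

/-- The `n` with at most `r` prime factors (counted with multiplicity), all larger than
`n ^ (1 / (3 r + 1))`. -/
def AlmostPrime (r : ℕ) : Set ℕ :=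
  {n | n.primeFactorsList.length ≤ r ∧ ∀ p : ℕ, p.Prime → p ∣ n → (n : ℝ) ^ (1 / (3 * (r : ℝ) + 1)) < p}

/-- `S` has at most `C (log x) ^ 2` elements up to `x`. -/
def Thin (C : ℝ) (S : Set ℕ) : Prop :=
  ∀ x : ℕ, 2 ≤ x → ({s | s ∈ S ∧ s ≤ x}.ncard : ℝ) ≤ C * Real.log x ^ 2

theorem all_integers (r : ℕ) (hr : 2 ≤ r) (η : ℝ) (hη : 4 / (3 * (r : ℝ) + 1) < η) (hη1 : η ≤ 1) (B : ℝ) :
    ∃ C : ℝ, 0 < C ∧ ∃ S : Set ℕ, Thin C S ∧ ∃ N₀ : ℕ, ∀ N : ℕ, N₀ ≤ N →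
      (∃ H : Finset ℕ, B * Real.log N ≤ H.card ∧
        ∀ s ∈ H, s ∈ S ∧ 1 ≤ s ∧ (s : ℝ) ≤ (N : ℝ) ^ η ∧ s < N ∧ N - s ∈ AlmostPrime r) ∧
      ∃ H : Finset ℕ, B * Real.log N ≤ H.card ∧
        ∀ s ∈ H, s ∈ S ∧ 1 ≤ s ∧ (s : ℝ) ≤ (N : ℝ) ^ η ∧ N + s ∈ AlmostPrime r := by
  classical
  have hr2 : (2 : ℝ) ≤ r := by exact_mod_cast hr
  obtain ⟨e, he⟩ : ∃ e : ℝ, e = (η - 4 / (3 * (r : ℝ) + 1)) / 3 := ⟨_, rfl⟩
  have he0 : 0 < e := by rw [he]; linarith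
  obtain ⟨θ, hθ⟩ : ∃ θ : ℝ, θ = 4 / (3 * (r : ℝ) + 1) + e := ⟨_, rfl⟩
  have hθ0 : 0 < θ := by
    rw [hθ]
    positivity
  obtain ⟨η₁, hη₁⟩ : ∃ η₁ : ℝ, η₁ = θ + e := ⟨_, rfl⟩
  have hηe : η = η₁ + e := by
    rw [hη₁, hθ, he]
    ring
  have hη₁0 : 0 < η₁ := by linarith
  obtain ⟨δ, hδ, m₁, hlow⟩ := hlowO r hr θ (by rw [hθ]; linarith) η₁ (by linarith)
  obtain ⟨K, hK, m₁', hup⟩ := hupO r
  obtain ⟨C, hC, S, hS1, hS2, m₂, hm₂⟩ := univI (θ := θ) (η := η₁) (W := 8) (δ := δ) (K := K) hθ0 (by linarith)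
    (by linarith) (by norm_num) hδ hK (hitO r) GO (max (max m₁ m₁') 1) (fun m hm => by
      exact GO_card m ((le_max_right _ _).trans hm)) (by
      intro m hm n hn1 hn2 N hN Q hQ
      exact hlow m (((le_max_left _ _).trans (le_max_left _ _)).trans hm) n hn1 hn2 N hN Q hQ) (by
      intro m hm q V hV hVq
      exact hup m (((le_max_right _ _).trans (le_max_left _ _)).trans hm) q V hV hVq) (2 * (|B| + 1)) (by positivity)
  have ev := (tendsto_rpow_atTop he0).eventually (eventually_gt_atTop (4 : ℝ))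
  obtain ⟨x₀, hx₀⟩ := eventually_atTop.1 ev
  refine ⟨C, hC, S, hS2, 4 ^ m₂ + ⌈x₀⌉₊ + 1, ?_⟩
  intro N hN
  have h4pos : 0 < 4 ^ m₂ := by positivity
  have hN1 : 1 ≤ N := by omega
  have hNr : (1 : ℝ) ≤ N := by exact_mod_cast hN1
  obtain ⟨m, hm⟩ : ∃ m, m = Nat.log 4 (4 * N) := ⟨_, rfl⟩
  have e1 : 4 ^ m ≤ 4 * N := by
    rw [hm]
    exact Nat.pow_log_le_self 4 (by omega)
  have e2 : 4 * N < 4 ^ (m + 1) := by
    rw [hm]
    exact Nat.lt_pow_succ_log_self (by norm_num) _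
  have hmm₂ : m₂ < m := by
    by_contra hcon
    push Not at hcon
    have : 4 ^ (m + 1) ≤ 4 ^ (m₂ + 1) := Nat.pow_le_pow_right (by norm_num) (by omega)
    rw [pow_succ 4 m₂] at this
    omega
  have hmem : ∀ σ, σ < 2 → Nat.pair N σ ∈ GO m := by
    intro σ hσ
    rw [mem_GO]
    refine ⟨⟨?_, ?_⟩, hσ⟩
    · have : 4 ^ m = 4 * 4 ^ (m - 1) := by
        rw [← pow_succ']
        congr 1
        omega
      omega
    · rw [pow_succ] at e2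
      omega
  have hlogN : B * Real.log N ≤ 2 * (|B| + 1) * m := by
    have h1 : (N : ℝ) ≤ 4 ^ m := by
      have : N ≤ 4 ^ m := by
        rw [pow_succ] at e2
        omega
      exact_mod_cast this
    have h2 := Real.log_le_log (by linarith) h1
    rw [Real.log_pow] at h2
    have hlog4 : Real.log 4 ≤ 2 := by
      rw [show (4 : ℝ) = 2 ^ 2 by norm_num, Real.log_pow]
      have := Real.log_two_lt_d9
      push_cast
      linarith
    have hm0 : (0 : ℝ) ≤ m := Nat.cast_nonneg _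
    have h3 : Real.log N ≤ 2 * m := by nlinarith
    have h4 : 0 ≤ Real.log N := Real.log_nonneg hNr
    calc B * Real.log N ≤ (|B| + 1) * Real.log N := by
          apply mul_le_mul_of_nonneg_right _ h4
          linarith [le_abs_self B]
      _ ≤ (|B| + 1) * (2 * m) := mul_le_mul_of_nonneg_left h3 (by positivity)
      _ = 2 * (|B| + 1) * m := by ring
  have hpow : ∀ s : ℕ, 2 * (s : ℝ) ≤ (4 : ℝ) ^ (η₁ * m) → (s : ℝ) ≤ (N : ℝ) ^ η := by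
    intro s hs
    have h1 : (4 : ℝ) ^ (m : ℝ) ≤ 4 * N := by
      rw [Real.rpow_natCast]
      exact_mod_cast e1
    have h2 : (4 : ℝ) ^ (η₁ * m) ≤ (4 * (N : ℝ)) ^ η₁ := by
      calc (4 : ℝ) ^ (η₁ * m) = ((4 : ℝ) ^ (m : ℝ)) ^ η₁ := by
            rw [← Real.rpow_mul (by norm_num), mul_comm]
        _ ≤ (4 * (N : ℝ)) ^ η₁ := Real.rpow_le_rpow (by positivity) h1 hη₁0.le
    have h3 : (4 : ℝ) ^ η₁ ≤ 4 := by
      calc (4 : ℝ) ^ η₁ ≤ (4 : ℝ) ^ (1 : ℝ) := Real.rpow_le_rpow_of_exponent_le (by norm_num) (by linarith)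
        _ = 4 := Real.rpow_one _
    have h4 := hx₀ N ((Nat.le_ceil _).trans (by exact_mod_cast (by omega : ⌈x₀⌉₊ ≤ N)))
    have h5 : 0 < (N : ℝ) ^ η₁ := Real.rpow_pos_of_pos (by linarith) _
    rw [Real.mul_rpow (by norm_num) (by linarith)] at h2
    rw [hηe, Real.rpow_add (by linarith)]
    have h6 : (0 : ℝ) ≤ s := Nat.cast_nonneg _
    nlinarith
  constructor
  · obtain ⟨H, hH1, hH2⟩ := hm₂ m hmm₂.le _ (hmem 1 (by norm_num))
    refine ⟨H, hlogN.trans hH2, ?_⟩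
    intro s hs
    obtain ⟨g1, g2, g3⟩ := hH1 s hs
    unfold hitO at g3
    rw [Nat.unpair_pair] at g3
    obtain ⟨g3, g4, g5, g6⟩ := g3
    have g4' : 2 * s ≤ N := g4
    exact ⟨g1, g3, hpow s g2, by omega, g6 (by norm_num)⟩
  · obtain ⟨H, hH1, hH2⟩ := hm₂ m hmm₂.le _ (hmem 0 (by norm_num))
    refine ⟨H, hlogN.trans hH2, ?_⟩
    intro s hs
    obtain ⟨g1, g2, g3⟩ := hH1 s hs
    unfold hitO at g3
    rw [Nat.unpair_pair] at g3
    obtain ⟨g3, g4, g5, g6⟩ := g3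
    exact ⟨g1, g3, hpow s g2, g5 rfl⟩

/-- **Thin sets of offsets: around all integers, and the `k`-fold Oppermann intervals.** -/
theorem result :
    (∀ (r : ℕ) (η B : ℝ), 2 ≤ r → 4 / (3 * (r : ℝ) + 1) < η → η ≤ 1 →
      ∃ C : ℝ, 0 < C ∧ ∃ S : Set ℕ, Thin C S ∧ ∃ N₀ : ℕ, ∀ N : ℕ, N₀ ≤ N →
        (∃ H : Finset ℕ, B * Real.log N ≤ H.card ∧
          ∀ s ∈ H, s ∈ S ∧ 1 ≤ s ∧ (s : ℝ) ≤ (N : ℝ) ^ η ∧ s < N ∧ N - s ∈ AlmostPrime r) ∧
        ∃ H : Finset ℕ, B * Real.log N ≤ H.card ∧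
          ∀ s ∈ H, s ∈ S ∧ 1 ≤ s ∧ (s : ℝ) ≤ (N : ℝ) ^ η ∧ N + s ∈ AlmostPrime r) ∧
    ∃ C : ℝ, 0 < C ∧ ∃ S : Set ℕ, Thin C S ∧ ∀ k : ℕ, ∃ n₀ : ℕ, ∀ n : ℕ, n₀ ≤ n →
      (∃ H : Finset ℕ, k ≤ H.card ∧
        ∀ s ∈ H, s ∈ S ∧ 1 ≤ s ∧ n ^ 2 - n < n ^ 2 - s ∧ n ^ 2 - s ∈ AlmostPrime 3) ∧
      ∃ H : Finset ℕ, k ≤ H.card ∧
        ∀ s ∈ H, s ∈ S ∧ 1 ≤ s ∧ n ^ 2 + s < n ^ 2 + n ∧ n ^ 2 + s ∈ AlmostPrime 3 := by
  refine ⟨fun r η B hr h1 h2 => all_integers r hr η h1 h2 B, ?_⟩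
  obtain ⟨C, hC, S, hS, N₀, h⟩ := all_integers 3 (by norm_num) (9 / 20) (by norm_num) (by norm_num) 1
  refine ⟨C, hC, S, hS, fun k => ?_⟩
  obtain ⟨x₀, hx₀⟩ := eventually_atTop.1 (Real.tendsto_log_atTop.eventually_ge_atTop (k : ℝ))
  refine ⟨N₀ + ⌈x₀⌉₊ + 2, fun n hn => ?_⟩
  have hn2 : 2 ≤ n := by omega
  have hnn : n ≤ n ^ 2 := by nlinarith
  obtain ⟨h1, h2⟩ := h (n ^ 2) (by omega)
  have hnr : (2 : ℝ) ≤ n := by exact_mod_cast hn2
  have hk : (k : ℝ) ≤ 1 * Real.log ((n ^ 2 : ℕ) : ℝ) := by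
    rw [one_mul]
    refine (hx₀ n ((Nat.le_ceil _).trans (by exact_mod_cast (by omega : ⌈x₀⌉₊ ≤ n)))).trans ?_
    apply Real.log_le_log (by linarith)
    exact_mod_cast hnn
  have hpw : ∀ s : ℕ, (s : ℝ) ≤ ((n ^ 2 : ℕ) : ℝ) ^ (9 / 20 : ℝ) → s < n := by
    intro s hs
    have h3 : ((n ^ 2 : ℕ) : ℝ) ^ (9 / 20 : ℝ) < n := by
      push_cast
      rw [← Real.rpow_natCast, ← Real.rpow_mul (by linarith)]
      calc (n : ℝ) ^ (((2 : ℕ) : ℝ) * (9 / 20)) < (n : ℝ) ^ (1 : ℝ) := by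
            apply Real.rpow_lt_rpow_of_exponent_lt (by linarith)
            norm_num
        _ = n := Real.rpow_one _
    exact_mod_cast lt_of_le_of_lt hs h3
  constructor
  · obtain ⟨H, hH1, hH2⟩ := h1
    refine ⟨H, by exact_mod_cast hk.trans hH1, ?_⟩
    intro s hs
    obtain ⟨g1, g2, g3, g4, g5⟩ := hH2 s hs
    have := hpw s g3
    exact ⟨g1, g2, by omega, g5⟩
  · obtain ⟨H, hH1, hH2⟩ := h2
    refine ⟨H, by exact_mod_cast hk.trans hH1, ?_⟩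
    intro s hs
    obtain ⟨g1, g2, g3, g5⟩ := hH2 s hs
    have := hpw s g3
    exact ⟨g1, g2, by omega, g5⟩

end Pool.Agent.Results.MP_1e9cc8_nt.ThinSetOfOffsets
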